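import Mathlib
import Pool.Agent.K7.H35.U.Space

set_option autoImplicit false

/-!
# Collectionwise Hausdorff reflection can fail at an ineffable cardinal

Part 1 is a theorem of ZFC: if a regular uncountable cardinal `μ` has a stationary set `S` with a
ladder system `L` which is uniformized (`UnifLadder`), then there is a normal space of character
`≤ μ` which is `< μ`-collectionwise Hausdorff and has a closed discrete subset of size `μ` which
is not separated (`FailsAt`).

Part 2: if `κ` is ineffable in all extensions by `κ`-directed closed forcing notions, then some
`κ`-directed closed forcing notion forces that `κ` is regular and ineffable and that there are a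
stationary set `S` of points of cofinality `ω` and a ladder system `L` on `S` with exactly the
properties of `UnifLadder` (`FStationary`, `FLadder` and `FUniformized` are the clauses of
`UnifLadder` in the language of forcing). Hence `FailsAt κ` holds in the extension, where `κ` is
ineffable.
-/

namespace Pool.Agent.Results.MP_f3e7a9_gt.ConsistentFailure

open Cardinal Pool.Agent.Helper669.Forcing Pool.Agent.Helper669.K Pool.Agent.R583.DDefs
open Pool.Agent.K7.H35.U

/-- Part 1: a uniformized ladder system on a stationary set gives a normal,
`< μ`-collectionwise Hausdorff space of character `≤ μ` which is not `μ`-collectionwise Hausdorff.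
Part 2: over an indestructibly ineffable `κ`, a `κ`-directed closed forcing notion forces that
`κ` is an ineffable cardinal and that there is a uniformized ladder system on a stationary set of
points of `κ` of cofinality `ω`. -/
theorem result :
    (∀ μ : Cardinal.{0}, ℵ₀ < μ → μ.IsRegular →
      (∃ (S : Set μ.ord.ToType) (L : μ.ord.ToType → Set μ.ord.ToType), UnifLadder S L) →
        FailsAt μ) ∧
    ∀ κ : Cardinal.{0}, IndestructiblyIneffable κ →
      ∃ (P : Type) (_ : Preorder P), Nonempty P ∧ DirClosed κ P ∧ ∀ p : P,
        p ∈ StaysRegular P κ ∧ p ∈ FIneffable P κ.ord.ToType ∧
        p ∈ fex fun S : κ.ord.ToType → Set P =>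
          fex fun L : κ.ord.ToType → κ.ord.ToType → Set P =>
            fand (fall fun a => fimp (meets (S a)) (FCofOmega a))
              (fand (FStationary fun a => meets (S a))
                (fand (FLadder S L) (FUniformized S L))) :=
  ⟨fun _ h0 hμ ⟨_, _, h⟩ => failsAt_of_unifLadder h0 hμ h, fun _ h => main h⟩

end Pool.Agent.Results.MP_f3e7a9_gt.ConsistentFailure
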